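import Pool.Agent.helper41.CL.Spec

/-!
# Row cl:DC (MP_d9d598_co): double counting
-/

set_option autoImplicit false

namespace Pool.Agent.helper41.CL

open Finset

theorem DC : DC_stmt := by
  intro α _ V E C hG hC
  have h1 : ∑ x ∈ C, #(inc E x) = ∑ e ∈ E, #(C.filter fun x => x ∈ e) := by
    have h2 : ∀ x, #(inc E x) = ∑ e ∈ E, if x ∈ e then 1 else 0 := fun x => by
      unfold inc
      rw [card_filter]
    have h3 : ∀ e : Finset α, #(C.filter fun x => x ∈ e) = ∑ x ∈ C, if x ∈ e then 1 else 0 := fun e => by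
      rw [card_filter]
    simp only [h2, h3]
    exact sum_comm
  rw [h1, card_filter, card_eq_sum_ones, ← sum_add_distrib]
  refine sum_le_sum fun e he => ?_
  split_ifs with h
  · have h4 : (C.filter fun x => x ∈ e) = e := by
      ext x
      simp only [mem_filter]
      exact ⟨fun hx => hx.2, fun hx => ⟨h hx, hx⟩⟩
    rw [h4, (hG e he).2]
  · obtain ⟨x, hx, hxC⟩ := hC e he
    have h5 : 0 < #(C.filter fun x => x ∈ e) := card_pos.mpr ⟨x, mem_filter.mpr ⟨hxC, hx⟩⟩
    omega

end Pool.Agent.helper41.CL
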